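import Pool.Agent.Results.MP_94d996_lc.EroderUndecidable

/-!
# Eroders: one monotone transition function and one integer parameter

The earlier result says that no algorithm decides, from the finite data of a monotonic system,
whether it is an eroder, and that the dimension, the memory and the set of states can be fixed.
Here the transition function and the number of neighbours are fixed as well, and so are the
coordinates of the neighbour vectors, except that some of them are equal to a natural number `N`,
which is the only input.  Every recursively enumerable set is many-one reduced to the set of the `N`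
for which the system is an eroder; so this set is not decidable and its complement is not
recursively enumerable.

The systems are those of the earlier proof, for a universal machine; `N` is the code of its input.
-/

set_option autoImplicit false

namespace Pool.Agent.Results.MP_94d996_lc.OneParameter

open Pool.Agent.Helper948.Erode Pool.Agent.Results.MP_94d996_lc.EroderUndecidable
open Turing Turing.PartrecToTM2
open Nat.Partrec (Code)

/-- The system in dimension `d` with memory `1`, states `{0, ..., k}`, `n` neighbours and the
transition function `tr` in which the `j`-th coordinate of the space part of the `i`-th neighbour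
vector is `tm i j`, or `N` if `tm i j` is `none`; the time parts are `-1`. -/
def fam (d k n : ℕ) (hd : 1 ≤ d) (hk : 1 ≤ k) (hn : 1 ≤ n) (tm : Fin n → Fin d → Option ℤ)
    (tr : (Fin n → Fin (k + 1)) → Fin (k + 1)) (N : ℕ) : DetSystem where
  d := d
  m := 1
  k := k
  n := n
  hd := hd
  hm := le_rfl
  hk := hk
  hn := hn
  v i := (fun j => (tm i j).getD (N : ℤ), -1)
  hv i := by simp
  tr := tr

/-- A fixed finite counter machine whose halting set is universal. -/
theorem exists_sys' : ∃ (Q : Type) (_ : Finite Q) (M : Sys Q Bool) (q0 : Q) (N : ℕ → ℕ),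
    Computable N ∧ ∀ n, M.Halts (some q0) (ini (N n)) ↔ (u n).Dom := by
  classical
  obtain ⟨Λ, i1, i2, M, hM⟩ := exists_machine
  have fK : Finite PartrecToTM2.K' := by
    refine Finite.of_injective (fun k : PartrecToTM2.K' => match k with
      | .main => (0 : Fin 4) | .rev => 1 | .aux => 2 | .stack => 3) ?_
    intro a b h
    cases a <;> cases b <;> simp_all
  have fG : Finite (TM2to1.Γ' PartrecToTM2.K' (fun _ => PartrecToTM2.Γ')) :=
    inferInstanceAs (Finite (Bool × (PartrecToTM2.K' → Option PartrecToTM2.Γ')))
  let _ : Fintype (TM2to1.Γ' PartrecToTM2.K' (fun _ => PartrecToTM2.Γ')) := Fintype.ofFinite _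
  let N : ℕ → ℕ := fun n => enc (sym true .cons :: (trNat n).reverse.map (sym false))
  refine ⟨Λ, i2, sys M, default, N, ?_, ?_⟩
  · have h1 := digits_computable (fun a => kap (sym false a))
    have h2 : Computable (fun n : ℕ => ((trNat n).map (fun a => kap (sym false a))).reverse) :=
      Primrec.list_reverse.to_comp.comp h1
    have h3 := (foldr_computable
      (bas (TM2to1.Γ' PartrecToTM2.K' (fun _ => PartrecToTM2.Γ')))).comp h2
    have h4 : Computable (fun x : ℕ => kap (sym true .cons) +
        (bas (TM2to1.Γ' PartrecToTM2.K' (fun _ => PartrecToTM2.Γ'))) * x) :=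
      (Primrec.nat_add.comp (Primrec.const _)
        (Primrec.nat_mul.comp (Primrec.const _) Primrec.id)).to_comp
    refine (h4.comp h3).of_eq ?_
    intro n
    have e : ∀ l : List PartrecToTM2.Γ', enc (l.map (sym false)) =
        (l.map (fun a => kap (sym false a))).foldr (fun d acc => d +
          (bas (TM2to1.Γ' PartrecToTM2.K' (fun _ => PartrecToTM2.Γ'))) * acc) 0 := by
      intro l
      induction l with
      | nil => rfl
      | cons a l ih =>
        simp only [List.map_cons, enc, List.foldr_cons, ih]
    simp only [N, enc]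
    rw [e, List.map_reverse]
  · intro n
    rw [← hM n]
    apply halts_iff
    constructor
    · have := rep_enc (sym true .cons :: (trNat n).reverse.map (sym false))
      have e : (Tape.mk₁ (sym true PartrecToTM2.Γ'.cons :: (trNat n).reverse.map
          (sym false))).right₀ = ListBlank.mk (sym true .cons ::
            (trNat n).reverse.map (sym false)) := by
        unfold Tape.mk₁ Tape.mk₂
        rw [Tape.mk'_right₀]
      simp only [TM0.init, e]
      exact this
    · exact rep_zero

/-- Every recursively enumerable set is many-one reducible to the halting set. -/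
theorem universal {S : ℕ → Prop} (hS : REPred S) : ∃ g : ℕ → ℕ, Computable g ∧
    ∀ n, S n ↔ (u (g n)).Dom := by
  have hf : Partrec (fun m : ℕ => (Part.assert (S (Nat.unpair m).1) fun _ => Part.some ()).map
      (fun _ => 0)) :=
    Partrec.map (Partrec.comp hS (Computable.fst.comp Computable.unpair)) (Computable.const 0).to₂
  obtain ⟨c, hc⟩ := Code.exists_code.1 (Partrec.nat_iff.1 hf)
  refine ⟨fun n => Encodable.encode (Code.curry c n),
    Computable.encode.comp (Code.primrec₂_curry.comp (Primrec.const c) Primrec.id).to_comp,
    fun n => ?_⟩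
  unfold u
  rw [Denumerable.ofNat_encode, Code.eval_curry, hc]
  simp [Part.map, Part.assert]

/-- The systems of the earlier proof form such a family. -/
theorem family {Q : Type} [Finite Q] (M : Sys Q Bool) (q0 : Q) :
    ∃ (k n : ℕ) (hk : 1 ≤ k) (hn : 1 ≤ n) (tm : Fin n → Fin 15 → Option ℤ)
      (tr : (Fin n → Fin (k + 1)) → Fin (k + 1)), Monotone tr ∧
      (∃ N₁ : ℕ, ∀ N, N₁ ≤ N →
        Function.Injective (fam 15 k n (by norm_num) hk hn tm tr N).v) ∧
      ∀ N : ℕ, (fam 15 k n (by norm_num) hk hn tm tr N).Eroder ↔
        (dm M q0 N).Halts (some .init, 0) := by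
  have key : ∀ d : ℕ, Fintype.card (Option (Bool × Rg) ⊕ Bool) = d → ∀ hd : 1 ≤ d,
      ∃ (k n : ℕ) (hk : 1 ≤ k) (hn : 1 ≤ n) (tm : Fin n → Fin d → Option ℤ)
      (tr : (Fin n → Fin (k + 1)) → Fin (k + 1)), Monotone tr ∧
      (∃ N₁ : ℕ, ∀ N, N₁ ≤ N → Function.Injective (fam d k n hd hk hn tm tr N).v) ∧
      ∀ N : ℕ, (fam d k n hd hk hn tm tr N).Eroder ↔ (dm M q0 N).Halts (some .init, 0) := by
    rintro d rfl hd
    let S := mkSys (Cl (net M q0 0) (s0 M)) (prm M q0) (wt M q0 0)
    let tm : Fin S.n → Fin (Fintype.card (Option (Bool × Rg) ⊕ Bool)) → Option ℤ := fun i j =>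
      ((Fintype.equivFin (Tp M q0)).symm i).1 ((Fintype.equivFin (Option (Bool × Rg) ⊕ Bool)).symm j)
    have hfam : ∀ N, inst M q0 N = fam _ S.k S.n hd S.hk S.hn tm S.tr N := by
      intro N
      unfold inst
      rw [cl_net]
      rfl
    refine ⟨S.k, S.n, S.hk, S.hn, tm, S.tr, mkSys_mono _ _ _, ?_, fun N => ?_⟩
    · obtain ⟨n1, hn1⟩ := inst_inj M q0
      refine ⟨n1, fun N hN => ?_⟩
      rw [← hfam]
      exact hn1 N hN
    · rw [← hfam]
      exact inst_iff M q0 N
  exact key 15 (by simp) (by norm_num)

/-- **One integer parameter.** There are `k ≥ 1`, `n ≥ 1`, a monotone transition function `tr` of `n`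
arguments on the states `{0, ..., k}`, and `n` neighbour vectors in dimension `15` with time part
`-1` whose coordinates are fixed integers, except that some of them are equal to a parameter
`N ∈ ℕ`, such that for the systems `D_N` with these data

* every recursively enumerable set is many-one reducible to the set of the `N` for which `D_N` is
  an eroder;
* no algorithm decides, given `N`, whether `D_N` is an eroder;
* the set of the `N` for which `D_N` is not an eroder is not recursively enumerable;
* for all large `N` the neighbour vectors of `D_N` are pairwise different. -/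
theorem result : ∃ (k n : ℕ) (hk : 1 ≤ k) (hn : 1 ≤ n) (tm : Fin n → Fin 15 → Option ℤ)
    (tr : (Fin n → Fin (k + 1)) → Fin (k + 1)), Monotone tr ∧
    (∀ W : ℕ → Prop, REPred W → ∃ f : ℕ → ℕ, Computable f ∧
      ∀ x, W x ↔ (fam 15 k n (by norm_num) hk hn tm tr (f x)).Eroder) ∧
    (¬ ComputablePred fun N => (fam 15 k n (by norm_num) hk hn tm tr N).Eroder) ∧
    (¬ REPred fun N => ¬ (fam 15 k n (by norm_num) hk hn tm tr N).Eroder) ∧
    ∃ N₁ : ℕ, ∀ N, N₁ ≤ N → Function.Injective (fam 15 k n (by norm_num) hk hn tm tr N).v := by
  obtain ⟨Q, hQ, M, q0, r, hr, hT⟩ := exists_sys'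
  obtain ⟨k, n, hk, hn, tm, tr, hmono, hinj, h⟩ := family M q0
  have hT' : ∀ x, (fam 15 k n (by norm_num) hk hn tm tr (r x)).Eroder ↔ (u x).Dom := fun x => by
    rw [h, dm_init_halts, hT]
  have hre : REPred fun n => (u n).Dom := u_partrec.dom_re
  have hco : ¬ REPred fun N => ¬ (fam 15 k n (by norm_num) hk hn tm tr N).Eroder := by
    intro h1
    refine u_not_computable (ComputablePred.computable_iff_re_compl_re'.2 ⟨hre, ?_⟩)
    have h2 : REPred fun x => ¬ (fam 15 k n (by norm_num) hk hn tm tr (r x)).Eroder :=
      Partrec.comp h1 hr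
    exact h2.of_eq fun x => by rw [hT']
  refine ⟨k, n, hk, hn, tm, tr, hmono, ?_, fun h1 => hco h1.not.to_re, hco, hinj⟩
  intro W hW
  obtain ⟨g, hg, hWg⟩ := universal hW
  exact ⟨fun n => r (g n), hr.comp hg, fun n => by rw [hT', ← hWg]⟩

end Pool.Agent.Results.MP_94d996_lc.OneParameter
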